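import Pool.Agent.Helper76.SGA.Goals

/-!
Packet SGA-STEPA (helper4).
-/

set_option autoImplicit false

open MvPolynomial

namespace Pool.Agent.Helper4.SGA

open Pool.Agent.Helper92.Ru Pool.Agent.Helper42.SG Pool.Agent.Helper76.SGA

noncomputable section

theorem indGe_mono {k : Type} [Field k] {M : ℕ} {r : Fin M → ℕ} {ξ : Fin M → k} {θ θ' : ℝ}
    {p : MvPolynomial (Fin M) k} (h : θ' ≤ θ) (hp : IndGe r ξ θ p) : IndGe r ξ θ' p :=
  fun e he => h.trans (hp e he)

theorem stepa (h1 : RES) (h2 : REN) : STEPA := by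
  intro k _ _ m σ hσ
  obtain ⟨C, hC, hRES⟩ := h1 k m
  refine ⟨C, min 1 (σ / 2), min 2 (σ / 4) * σ / 8, hC, lt_min one_pos (by positivity),
    min_le_left _ _, ?_, ?_⟩
  · have : 0 < min (2 : ℝ) (σ / 4) := lt_min two_pos (by positivity)
    positivity
  intro r ξ H W f hr hlast hω hirr hInv hdeg hV
  obtain ⟨hf0, hW, hdW, hPH, hInd⟩ := hInv
  have hm0 : 0 < min (2 : ℝ) (σ / 4) := lt_min two_pos (by positivity)
  have hR1 : (1 : ℝ) ≤ (r (Fin.last (m + 1)) : ℝ) := by exact_mod_cast (hr (Fin.last (m + 1))).1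
  have hR0 : (0 : ℝ) < (r (Fin.last (m + 1)) : ℝ) := lt_of_lt_of_le one_pos hR1
  have hH : (1 : ℝ) ≤ H := hR1.trans (hr (Fin.last (m + 1))).2
  have hRW : 1 ≤ (r (Fin.last (m + 1)) : ℝ) * W := by
    rcases hdeg with h | h
    · exact le_trans (by exact_mod_cast h) (hdW (Fin.last (m + 1)))
    · refine le_trans (by exact_mod_cast h) ((hdW (Fin.castSucc (Fin.last m))).trans ?_)
      rw [hlast]
  by_cases hN : 1 ≤ f.degreeOf (Fin.last (m + 1))
  · -- case (a)
    have hω0 : 0 < min (1 : ℝ) (σ / 2) := lt_min one_pos (by positivity)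
    obtain ⟨g, hg0, hgd, hgPH, hgInd⟩ := hRES r ξ f H W (σ * W)
      ((r (Fin.last (m + 1)) : ℝ) / min 1 (σ / 2)) hr hW hirr hdW hPH (by positivity) hInd hN hV
      (by positivity) (by
        intro h
        rw [div_le_iff₀ hω0, mul_comm]
        exact hω h) (by
        rw [one_div, inv_div, div_le_iff₀ hR0]
        calc min (1 : ℝ) (σ / 2) ≤ σ / 2 := min_le_right _ _
          _ = σ / 2 * 1 := (mul_one _).symm
          _ ≤ σ / 2 * ((r (Fin.last (m + 1)) : ℝ) * W) := by
              apply mul_le_mul_of_nonneg_left hRW (by positivity)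
          _ = σ * W / 2 * (r (Fin.last (m + 1)) : ℝ) := by ring)
    have hN1 : (1 : ℝ) ≤ (f.degreeOf (Fin.last (m + 1)) : ℝ) := by exact_mod_cast hN
    have hN0 : (0 : ℝ) < (f.degreeOf (Fin.last (m + 1)) : ℝ) := lt_of_lt_of_le one_pos hN1
    have hNR : (f.degreeOf (Fin.last (m + 1)) : ℝ) ≤ (r (Fin.last (m + 1)) : ℝ) * W :=
      hdW (Fin.last (m + 1))
    refine ⟨g, 2 * (f.degreeOf (Fin.last (m + 1)) : ℝ) * W, ?_, hg0, by positivity, ?_, ?_, ?_⟩
    · calc (1 : ℝ) ≤ (r (Fin.last (m + 1)) : ℝ) * W := hRW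
        _ = 1 * ((r (Fin.last (m + 1)) : ℝ) * W) := (one_mul _).symm
        _ ≤ (2 * (f.degreeOf (Fin.last (m + 1)) : ℝ)) * ((r (Fin.last (m + 1)) : ℝ) * W) := by
            apply mul_le_mul_of_nonneg_right _ (by positivity)
            linarith
        _ = _ := by ring
    · intro h
      calc (g.degreeOf h : ℝ)
          ≤ 2 * (f.degreeOf (Fin.last (m + 1)) : ℝ) * (f.degreeOf (Fin.castSucc h) : ℝ) := by
            exact_mod_cast hgd h
        _ ≤ 2 * (f.degreeOf (Fin.last (m + 1)) : ℝ) * ((r (Fin.castSucc h) : ℝ) * W) := by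
            apply mul_le_mul_of_nonneg_left (hdW _) (by positivity)
        _ = _ := by ring
    · refine hgPH.trans (le_of_eq ?_)
      ring
    · refine indGe_mono ?_ hgInd
      have h3 : min (2 : ℝ) (σ / 4) * (f.degreeOf (Fin.last (m + 1)) : ℝ) ≤
          min (2 * (f.degreeOf (Fin.last (m + 1)) : ℝ))
            (σ * W * (r (Fin.last (m + 1)) : ℝ) / 4) := by
        apply le_min
        · exact mul_le_mul_of_nonneg_right (min_le_left _ _) hN0.le
        · calc min (2 : ℝ) (σ / 4) * (f.degreeOf (Fin.last (m + 1)) : ℝ)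
              ≤ σ / 4 * (f.degreeOf (Fin.last (m + 1)) : ℝ) :=
                mul_le_mul_of_nonneg_right (min_le_right _ _) hN0.le
            _ ≤ σ / 4 * ((r (Fin.last (m + 1)) : ℝ) * W) :=
                mul_le_mul_of_nonneg_left hNR (by positivity)
            _ = _ := by ring
      calc min (2 : ℝ) (σ / 4) * σ / 8 * (2 * (f.degreeOf (Fin.last (m + 1)) : ℝ) * W)
          = min (2 : ℝ) (σ / 4) * (f.degreeOf (Fin.last (m + 1)) : ℝ) * (σ * W / 4) := by ring
        _ ≤ _ := mul_le_mul_of_nonneg_right h3 (by positivity)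
  · -- case (b)
    have hN0 : f.degreeOf (Fin.last (m + 1)) = 0 := by omega
    obtain ⟨g, hfg, hgd, hgPH, hgInd, -, -⟩ := h2 k (m + 1) (m + 2) Fin.castSucc
      (Fin.castSucc_injective _) f (by
        intro h hh
        rcases Fin.eq_castSucc_or_eq_last h with ⟨j, hj⟩ | hj
        · exact absurd ⟨j, hj.symm⟩ hh
        · rw [hj]
          exact hN0)
    refine ⟨g, W, hRW, ?_, hW, ?_, ?_, ?_⟩
    · intro hg
      apply hf0
      rw [hfg, hg, map_zero]
    · intro h
      rw [hgd]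
      exact hdW _
    · rw [hgPH]
      refine hPH.trans ?_
      apply mul_le_mul_of_nonneg_right _ hW.le
      calc H = 1 * H := (one_mul _).symm
        _ ≤ C * H := mul_le_mul_of_nonneg_right hC (by linarith)
    · refine indGe_mono ?_ (hgInd r ξ _ hInd)
      apply mul_le_mul_of_nonneg_right _ hW.le
      have h4 : min (2 : ℝ) (σ / 4) ≤ 2 := min_le_left _ _
      calc min (2 : ℝ) (σ / 4) * σ / 8 ≤ 2 * σ / 8 := by
            apply div_le_div_of_nonneg_right _ (by norm_num)
            exact mul_le_mul_of_nonneg_right h4 hσ.le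
        _ ≤ σ := by linarith

end

end Pool.Agent.Helper4.SGA
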